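import Pool.Agent.Lib.MP_b07157_agQ.QHom

/-!
# Weighted homogeneous polynomials: local and global Bernstein–Sato polynomials
-/

noncomputable section

namespace MPb07157

open MvPolynomial

namespace YC

variable {n : ℕ}

section HC

variable {A : Type} [CommRing A] {a : Fin n → ℕ}

theorem bsC_comp_mul_left {c g : MvPolynomial (Fin n) A} {i : ℕ}
    (hc : c.IsWeightedHomogeneous a i) (j : ℕ) :
    weightedHomogeneousComponent a (i + j) (c * g) = c * weightedHomogeneousComponent a j g := by
  classical
  ext m
  rw [coeff_weightedHomogeneousComponent, coeff_mul, coeff_mul]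
  split_ifs with hm
  · refine Finset.sum_congr rfl fun p hp => ?_
    by_cases h0 : coeff p.1 c = 0
    · rw [h0, zero_mul, zero_mul]
    · have h1 : Finsupp.weight a p.1 = i := hc h0
      have h2 : p.1 + p.2 = m := Finset.HasAntidiagonal.mem_antidiagonal.1 hp
      have h3 : Finsupp.weight a p.2 = j := by
        rw [← h2, map_add, h1] at hm
        omega
      rw [coeff_weightedHomogeneousComponent, if_pos h3]
  · symm
    refine Finset.sum_eq_zero fun p hp => ?_
    by_cases h0 : coeff p.1 c = 0
    · rw [h0, zero_mul]
    · have h1 : Finsupp.weight a p.1 = i := hc h0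
      have h2 : p.1 + p.2 = m := Finset.HasAntidiagonal.mem_antidiagonal.1 hp
      have h3 : Finsupp.weight a p.2 ≠ j := by
        intro h4
        apply hm
        rw [← h2, map_add, h1, h4]
      rw [coeff_weightedHomogeneousComponent, if_neg h3, mul_zero]

theorem bsC_comp_mul_left_lt {c g : MvPolynomial (Fin n) A} {i : ℕ}
    (hc : c.IsWeightedHomogeneous a i) {j : ℕ} (hj : j < i) :
    weightedHomogeneousComponent a j (c * g) = 0 := by
  classical
  ext m
  rw [coeff_weightedHomogeneousComponent, coeff_mul, coeff_zero]
  split_ifs with hm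
  · refine Finset.sum_eq_zero fun p hp => ?_
    have h2 : p.1 + p.2 = m := Finset.HasAntidiagonal.mem_antidiagonal.1 hp
    have h1 : Finsupp.weight a p.1 ≠ i := by
      rw [← h2, map_add] at hm
      omega
    rw [hc.coeff_eq_zero p.1 h1, zero_mul]
  · rfl

theorem bsC_weight_sub (m : Fin n →₀ ℕ) {i : Fin n} (hm : m i ≠ 0) :
    Finsupp.weight a (m - Finsupp.single i 1) + a i = Finsupp.weight a m := by
  have h2 : m - Finsupp.single i 1 + Finsupp.single i 1 = m := by
    ext k
    rw [Finsupp.add_apply, Finsupp.tsub_apply]
    by_cases hk : k = i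
    · subst hk
      rw [Finsupp.single_eq_same]
      omega
    · rw [Finsupp.single_eq_of_ne hk]
      omega
  conv_rhs => rw [← h2]
  rw [map_add, Finsupp.weight_single, one_smul]

theorem bsC_comp_monomial (j : ℕ) (m : Fin n →₀ ℕ) (r : A) :
    weightedHomogeneousComponent a j (monomial m r) =
      if Finsupp.weight a m = j then monomial m r else 0 := by
  rw [weightedHomogeneousComponent_of_mem (isWeightedHomogeneous_monomial a m r rfl)]
  simp only [eq_comm]

theorem bsC_comp_pderiv (i : Fin n) (g : MvPolynomial (Fin n) A) (j : ℕ) :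
    weightedHomogeneousComponent a j (pderiv i g) =
      pderiv i (weightedHomogeneousComponent a (j + a i) g) := by
  classical
  induction g using MvPolynomial.induction_on' with
  | add p q hp hq => simp only [map_add, hp, hq]
  | monomial m r =>
    rw [pderiv_monomial, bsC_comp_monomial, bsC_comp_monomial]
    by_cases hm : m i = 0
    · rw [hm, Nat.cast_zero, mul_zero, monomial_zero, ite_self]
      split_ifs
      · rw [pderiv_monomial, hm, Nat.cast_zero, mul_zero, monomial_zero]
      · rw [map_zero]
    · have h1 := bsC_weight_sub (a := a) m hm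
      by_cases h3 : Finsupp.weight a m = j + a i
      · rw [if_pos (by omega), if_pos h3, pderiv_monomial]
      · rw [if_neg (by omega), if_neg h3, map_zero]

theorem bsC_pderiv_eq_zero {g : MvPolynomial (Fin n) A} {d : ℕ}
    (hg : g.IsWeightedHomogeneous a d) {i : Fin n} (hd : d < a i) : pderiv i g = 0 := by
  classical
  rw [g.as_sum, map_sum]
  refine Finset.sum_eq_zero fun m hm => ?_
  rw [pderiv_monomial]
  by_cases h0 : m i = 0
  · rw [h0, Nat.cast_zero, mul_zero, monomial_zero]
  · exfalso
    have h1 := bsC_weight_sub (a := a) m h0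
    have h2 : Finsupp.weight a m = d := hg (mem_support_iff.1 hm)
    omega

theorem bsC_pderiv {g : MvPolynomial (Fin n) A} {d : ℕ}
    (hg : g.IsWeightedHomogeneous a d) {i : Fin n} (hd : a i ≤ d) :
    (pderiv i g).IsWeightedHomogeneous a (d - a i) := by
  have h1 : weightedHomogeneousComponent a (d - a i) (pderiv i g) = pderiv i g := by
    rw [bsC_comp_pderiv, Nat.sub_add_cancel hd, weightedHomogeneousComponent_eq_self hg]
  rw [← h1]
  exact weightedHomogeneousComponent_isWeightedHomogeneous _ _

end HC

theorem bsC_liftS {f : MvPolynomial (Fin n) ℂ} {a : Fin n → ℕ} {D : ℕ}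
    (hf : f.IsWeightedHomogeneous a D) : (liftS f).IsWeightedHomogeneous a D := by
  intro m hm
  apply hf
  intro h0
  apply hm
  rw [liftS, coeff_map, h0, map_zero]

/-- The weighted homogeneous components of the elements of `InDn f k` are in `InDn f k`. -/
theorem bsC_inDn {f : MvPolynomial (Fin n) ℂ} {a : Fin n → ℕ} {D : ℕ}
    (hf : f.IsWeightedHomogeneous a D) {k : ℕ} {g : MvPolynomial (Fin n) (Polynomial ℂ)}
    (h : InDn f k g) (j : ℕ) : InDn f k (weightedHomogeneousComponent a j g) := by
  classical
  induction h generalizing j with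
  | base =>
    rw [weightedHomogeneousComponent_of_mem (isWeightedHomogeneous_one (Polynomial ℂ) a)]
    split_ifs
    · exact InDn.base
    · exact InDn.exists_zero f 0
  | add _ _ ih1 ih2 =>
    rw [map_add]
    exact (ih1 j).add (ih2 j)
  | @mul k g c _ ih =>
    induction c using MvPolynomial.induction_on' with
    | add p q hp hq =>
      rw [add_mul, map_add]
      exact hp.add hq
    | monomial m r =>
      have hc := isWeightedHomogeneous_monomial a m r rfl
      rcases lt_or_ge j (Finsupp.weight a m) with h1 | h1
      · rw [bsC_comp_mul_left_lt hc h1]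
        exact InDn.exists_zero f k
      · obtain ⟨l, rfl⟩ := Nat.exists_eq_add_of_le h1
        rw [bsC_comp_mul_left hc]
        exact (ih l).mul _
  | @deriv k g i _ ih =>
    have hL := bsC_liftS hf
    rw [map_add]
    rcases lt_or_ge D (a i) with hd | hd
    · have h1 : pderiv i f = 0 := bsC_pderiv_eq_zero hf hd
      have h3 : liftS (0 : MvPolynomial (Fin n) ℂ) = 0 := map_zero _
      rcases lt_or_ge j D with h4 | h4
      · rw [h1, h3, mul_zero, zero_mul, map_zero, add_zero, bsC_comp_mul_left_lt hL h4]
        exact InDn.exists_zero f _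
      · obtain ⟨l, rfl⟩ := Nat.exists_eq_add_of_le h4
        have h2 := (ih (l + a i)).deriv i
        rw [h1] at h2 ⊢
        rw [h3, mul_zero, zero_mul, add_zero] at h2
        rw [h3, mul_zero, zero_mul, map_zero, add_zero, bsC_comp_mul_left hL, bsC_comp_pderiv]
        exact h2
    · have hL' : (liftS (pderiv i f)).IsWeightedHomogeneous a (D - a i) :=
        bsC_liftS (bsC_pderiv hf hd)
      have hC : (MvPolynomial.C (Polynomial.X + 1 - (k : Polynomial ℂ)) *
          liftS (pderiv i f)).IsWeightedHomogeneous a (D - a i) := hL'.C_mul _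
      rcases lt_or_ge j (D - a i) with h1 | h1
      · rw [bsC_comp_mul_left_lt hL (by omega), bsC_comp_mul_left_lt hC h1, add_zero]
        exact InDn.exists_zero f _
      · obtain ⟨l, rfl⟩ := Nat.exists_eq_add_of_le h1
        rw [bsC_comp_mul_left hC]
        have h2 := (ih l).deriv i
        have h3 : weightedHomogeneousComponent a (D - a i + l) (liftS f * pderiv i g) =
            liftS f * pderiv i (weightedHomogeneousComponent a l g) := by
          rcases lt_or_ge l (a i) with h4 | h4
          · rw [bsC_comp_mul_left_lt hL (by omega),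
              bsC_pderiv_eq_zero (weightedHomogeneousComponent_isWeightedHomogeneous l g) h4,
              mul_zero]
          · obtain ⟨l', rfl⟩ := Nat.exists_eq_add_of_le h4
            have h5 : D - a i + (a i + l') = D + l' := by omega
            rw [h5, bsC_comp_mul_left hL, bsC_comp_pderiv, Nat.add_comm l' (a i)]
        rw [h3]
        exact h2
  | @raise k g _ ih =>
    have hL := bsC_liftS hf
    rcases lt_or_ge j D with h1 | h1
    · rw [bsC_comp_mul_left_lt hL h1]
      exact InDn.exists_zero f _
    · obtain ⟨l, rfl⟩ := Nat.exists_eq_add_of_le h1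
      rw [bsC_comp_mul_left hL]
      exact (ih l).raise
  | @lower k g _ ih =>
    apply InDn.lower
    rw [← bsC_comp_mul_left (bsC_liftS hf)]
    exact ih _

/-- For weighted homogeneous `f` formal Bernstein–Sato polynomials are global Bernstein–Sato
polynomials. As `isBernsteinSato_of_form_homogeneous` (`agQ/QHom.lean`, the case of the weights one),
with `weightedHomogeneousComponent a` instead of `homogeneousComponent`. -/
theorem isBernsteinSato_of_form_weighted {f : MvPolynomial (Fin n) ℂ} {a : Fin n → ℕ}
    (ha : ∀ i, 0 < a i) {D : ℕ} (hh : f.IsWeightedHomogeneous a D) {b : Polynomial ℂ}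
    (hb : InDnForm f 1 (b.map (MvPowerSeries.C (σ := Fin n) (R := ℂ)))) :
    IsBernsteinSato f b := by
  classical
  obtain ⟨h, h0, h1⟩ := hb.exists_poly
  have h2 := bsC_inDn hh h1 0
  have h3 : weightedHomogeneousComponent a 0 (MvPolynomial.C b * liftS h) =
      MvPolynomial.C b := by
    rw [weightedHomogeneousComponent_C_mul]
    have h5 : weightedHomogeneousComponent a 0 (liftS h) = 1 := by
      ext m
      rw [coeff_weightedHomogeneousComponent]
      by_cases hm : m = 0
      · subst hm
        rw [if_pos (map_zero _), coeff_one, if_pos rfl, liftS, coeff_map, ← constantCoeff_eq, h0,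
          map_one]
      · have h6 : Finsupp.weight a m ≠ 0 := by
          intro h6
          apply hm
          ext k
          rw [Finsupp.zero_apply]
          by_contra hk
          have h7 := bsC_weight_sub (a := a) m (i := k) hk
          have h8 := ha k
          omega
        rw [if_neg h6, coeff_one, if_neg (fun h => hm h.symm)]
    rw [h5, mul_one]
  rw [h3] at h2
  exact h2

end YC

end MPb07157
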