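import Pool.Agent.Lib.MP_b07157_agYC.Defs

/-!
# The arcs of weighted order `k` of weighted homogeneous polynomials
-/

noncomputable section

namespace MPb07157

open MvPolynomial

namespace YC

open YV YW

variable {n : ℕ} {f : MvPolynomial (Fin n) ℂ} {a : Fin n → ℕ} {D : ℕ}

namespace ConC

/-- `f(t^(a_j k) y_j) = t^(D k) f(y)`. -/
theorem aeval_weighted (hh : f.IsWeightedHomogeneous a D) (k : ℕ) (g : Fin n → PowerSeries ℂ) :
    (aeval (fun j => PowerSeries.X ^ (a j * k) * g j) f : PowerSeries ℂ) =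
      PowerSeries.X ^ (D * k) * aeval g f := by
  rw [aeval_def, aeval_def, eval₂_eq', eval₂_eq', Finset.mul_sum]
  refine Finset.sum_congr rfl fun v hv => ?_
  have h1 : ∑ j, a j * k * v j = D * k := by
    have h2 := hh (mem_support_iff.1 hv)
    rw [Finsupp.weight_apply, Finsupp.sum_fintype _ _ (fun i => by simp)] at h2
    rw [← h2, Finset.sum_mul]
    refine Finset.sum_congr rfl fun j _ => ?_
    rw [smul_eq_mul]
    ring
  simp only [mul_pow, ← pow_mul]
  rw [Finset.prod_mul_distrib, Finset.prod_pow_eq_pow_sum, h1]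
  ring

theorem order_iff {k i : ℕ} {H : PowerSeries ℂ} :
    (PowerSeries.X ^ (D * k) * H).order = ((D * k + i : ℕ) : ℕ∞) ↔ H.order = (i : ℕ∞) := by
  rw [PowerSeries.order_mul, PowerSeries.order_X_pow, Nat.cast_add]
  constructor
  · intro h1
    rcases eq_or_ne H.order ⊤ with h3 | h3
    · rw [h3, add_top, ← Nat.cast_add] at h1
      exact absurd h1.symm (ENat.natCast_ne_top _)
    · obtain ⟨m, hm⟩ := ENat.ne_top_iff_exists.1 h3
      rw [← hm] at h1 ⊢
      norm_cast at h1 ⊢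
      omega
  · intro h1
    rw [h1]

variable {k i L : ℕ}

/-- The jets of `y`. -/
def yv (hk : ∀ j, a j * k + i ≤ L) (γ : Fin n × Fin (L + 1) → ℂ) :
    Fin n × Fin (i + 1) → ℂ :=
  fun p => γ (p.1, ⟨a p.1 * k + p.2, by have := hk p.1; have := p.2.isLt; omega⟩)

theorem mem_iff (hh : f.IsWeightedHomogeneous a D) (hk : ∀ j, a j * k + i ≤ L)
    {γ : Fin n × Fin (L + 1) → ℂ} (hγ : Vn (fun j => a j * k) γ) :
    γ ∈ arcs f (L + 1) (D * k + i) ↔ yv hk γ ∈ arcs f (i + 1) i := by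
  have h1 : arc γ = fun j => PowerSeries.X ^ (a j * k) * tailS (fun j => a j * k) γ j :=
    funext fun j => arc_eq_tail hγ j
  show (aeval (arc γ) f : PowerSeries ℂ).order = _ ↔ (aeval (arc (yv hk γ)) f : PowerSeries ℂ).order = _
  rw [h1, aeval_weighted hh, order_iff]
  refine (order_congr (Nat.lt_succ_self i) ?_).symm
  refine aeval_congr_X_pow _ _ _ _ fun j => ?_
  rw [← neg_sub, dvd_neg, PowerSeries.X_pow_dvd_iff]
  intro l hl
  have h2 : a j * k + l < L + 1 := by
    have := hk j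
    omega
  rw [map_sub, sub_eq_zero, tailS, PowerSeries.coeff_mk, coeff_arc, dif_pos h2, coeff_arc,
    dif_pos hl]
  rfl

/-- The free coefficients. -/
abbrev Fr (n : ℕ) (a : Fin n → ℕ) (k i L : ℕ) : Type :=
  {p : Fin n × Fin (L + 1) // a p.1 * k + i + 1 ≤ (p.2 : ℕ)}

theorem card_Fr (hk : ∀ j, a j * k + i ≤ L) :
    n * (L + 1) = Fintype.card (Fr n a k i L) + ((∑ j, a j) * k + n * (i + 1)) := by
  classical
  have h1 : (Zpos (L + 1) fun j => a j * k + i + 1).card = ∑ j, (a j * k + i + 1) :=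
    card_Zpos fun j => by have := hk j; omega
  have h2 : (Finset.univ.filter fun p : Fin n × Fin (L + 1) =>
      ¬ (a p.1 * k + i + 1 ≤ (p.2 : ℕ))) = Zpos (L + 1) fun j => a j * k + i + 1 := by
    ext p
    simp only [Zpos, Finset.mem_filter, Finset.mem_univ, true_and, not_le]
  have h3 := Finset.card_filter_add_card_filter_not (s := (Finset.univ :
    Finset (Fin n × Fin (L + 1)))) (fun p => a p.1 * k + i + 1 ≤ (p.2 : ℕ))
  rw [h2, h1, Finset.card_univ, Fintype.card_prod, Fintype.card_fin, Fintype.card_fin] at h3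
  have h4 : ∑ j, (a j * k + i + 1) = (∑ j, a j) * k + n * (i + 1) := by
    simp only [add_assoc]
    rw [Finset.sum_add_distrib, Finset.sum_mul, Finset.sum_const, Finset.card_univ,
      Fintype.card_fin, smul_eq_mul]
  rw [Fintype.card_subtype, ← h4, h3]

/-- The map. -/
def ph (hk : ∀ j, a j * k + i ≤ L) :
    (Fin n × Fin (i + 1)) ⊕ Fr n a k i L → MvPolynomial (Fin n × Fin (L + 1)) ℂ :=
  Sum.elim (fun p => X (p.1, ⟨a p.1 * k + p.2, by have := hk p.1; have := p.2.isLt; omega⟩))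
    fun p => X p.1

theorem ph_inl (hk : ∀ j, a j * k + i ≤ L) (γ : Fin n × Fin (L + 1) → ℂ) :
    (fun p => polyMap (ph hk) γ (Sum.inl p)) = yv hk γ := by
  funext p
  show eval γ (X _) = _
  rw [eval_X]
  rfl

theorem ph_inr (hk : ∀ j, a j * k + i ≤ L) (γ : Fin n × Fin (L + 1) → ℂ) (p : Fr n a k i L) :
    polyMap (ph hk) γ (Sum.inr p) = γ p.1 := by
  show eval γ (X _) = _
  rw [eval_X]

theorem bijOn (hh : f.IsWeightedHomogeneous a D) {A : Set (Fin n → ℂ)}
    (hk : ∀ j, a j * k + i ≤ L) :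
    Set.BijOn (polyMap (ph hk))
      (arcs f (L + 1) (D * k + i) ∩ Sq.LA (L + 1) (fun j => a j * k) A)
      (prodSum (arcs f (i + 1) i ∩ AtW A i) (Set.univ : Set (Fr n a k i L → ℂ))) := by
  have hr : ∀ j, a j * k < L + 1 := fun j => by have := hk j; omega
  have hat : ∀ γ : Fin n × Fin (L + 1) → ℂ,
      (yv hk γ ∈ AtW A i ↔ lead0 (fun j => a j * k) γ ∈ A) := by
    intro γ
    rw [Sq.lead0_eq_of_lt hr]
    exact Iff.rfl
  refine ⟨?_, ?_, ?_⟩
  · rintro γ ⟨h1, h2, h3⟩
    refine ⟨?_, Set.mem_univ _⟩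
    rw [ph_inl]
    exact ⟨(mem_iff hh hk h2).1 h1, (hat γ).2 h3⟩
  · rintro γ ⟨-, h2, -⟩ γ' ⟨-, h2', -⟩ he
    have e1 : yv hk γ = yv hk γ' := by
      rw [← ph_inl, ← ph_inl, he]
    funext ⟨j, l⟩
    by_cases hl : (l : ℕ) < a j * k
    · rw [h2 j l hl, h2' j l hl]
    · by_cases hl' : (l : ℕ) < a j * k + i + 1
      · have h3 := congrFun e1 (j, ⟨(l : ℕ) - a j * k, by omega⟩)
        have h4 : (⟨a j * k + ((l : ℕ) - a j * k), by have := l.isLt; omega⟩ : Fin (L + 1)) = l := by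
          ext
          show a j * k + ((l : ℕ) - a j * k) = l
          omega
        have h5 : yv hk γ (j, ⟨(l : ℕ) - a j * k, by omega⟩) = γ (j, l) := by
          show γ (j, ⟨a j * k + ((l : ℕ) - a j * k), _⟩) = _
          rw [h4]
        have h6 : yv hk γ' (j, ⟨(l : ℕ) - a j * k, by omega⟩) = γ' (j, l) := by
          show γ' (j, ⟨a j * k + ((l : ℕ) - a j * k), _⟩) = _
          rw [h4]
        rw [← h5, ← h6, h3]
      · have h3 := congrFun he (Sum.inr ⟨(j, l), not_lt.1 hl'⟩)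
        rw [ph_inr, ph_inr] at h3
        exact h3
  · rintro z ⟨⟨h1, h2⟩, -⟩
    set γ : Fin n × Fin (L + 1) → ℂ := fun p =>
      if hl : a p.1 * k + i + 1 ≤ (p.2 : ℕ) then z (Sum.inr ⟨p, hl⟩) else
        if hl' : (p.2 : ℕ) < a p.1 * k then 0 else
          z (Sum.inl (p.1, ⟨(p.2 : ℕ) - a p.1 * k, by omega⟩)) with hγ
    have hV : Vn (fun j => a j * k) γ := by
      intro j l hl
      have hl0 : (l : ℕ) < a j * k := hl
      rw [hγ]
      show (if hl : a j * k + i + 1 ≤ (l : ℕ) then z (Sum.inr ⟨(j, l), hl⟩) else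
        if hl' : (l : ℕ) < a j * k then 0 else
          z (Sum.inl (j, ⟨(l : ℕ) - a j * k, by omega⟩))) = 0
      rw [dif_neg (by omega), dif_pos hl0]
    have hy : yv hk γ = fun p => z (Sum.inl p) := by
      funext ⟨j, l⟩
      have hl := l.isLt
      show (if hl : a j * k + i + 1 ≤ a j * k + (l : ℕ) then z (Sum.inr ⟨(j, _), hl⟩) else
        if hl' : a j * k + (l : ℕ) < a j * k then 0 else
          z (Sum.inl (j, ⟨a j * k + (l : ℕ) - a j * k, by omega⟩))) = z (Sum.inl (j, l))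
      rw [dif_neg (by omega), dif_neg (by omega)]
      have h4 : (⟨a j * k + (l : ℕ) - a j * k, by omega⟩ : Fin (i + 1)) = l := by
        ext
        show a j * k + (l : ℕ) - a j * k = l
        omega
      rw [h4]
    refine ⟨γ, ⟨?_, hV, ?_⟩, ?_⟩
    · rw [mem_iff hh hk hV, hy]
      exact h1
    · rw [← hat γ, hy]
      exact h2
    · funext p
      rcases p with p | p
      · exact (congrFun (ph_inl hk γ) p).trans (congrFun hy p)
      · rw [ph_inr, hγ]
        show (if hl : a p.1.1 * k + i + 1 ≤ (p.1.2 : ℕ) then z (Sum.inr ⟨p.1, hl⟩) else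
          if hl' : (p.1.2 : ℕ) < a p.1.1 * k then 0 else
            z (Sum.inl (p.1.1, ⟨(p.1.2 : ℕ) - a p.1.1 * k, by omega⟩))) = _
        rw [dif_pos p.2]

end ConC

/-- **The arcs of weighted order `k`** are the `x_j = t^(a_j k) y_j(t)`, `y(0) ∈ A`, and
`f(x) = t^(D k) f(y)`. The jets of length `L + 1` of `x` are mapped to the jets of length `i + 1` of
`y` (`a_j k + i ≤ D k + i ≤ L`), all fibres are affine spaces of dimension
`∑_j (L - a_j k - i)`. Compare `agQ/HArc.lean` (all `a_j = 1`), `cls_bijOn`, `cls_prodSum`. -/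
theorem conM_eq (haD : ∀ i, a i ≤ D) (hh : f.IsWeightedHomogeneous a D) {A : Set (Fin n → ℂ)}
    (hA : IsConstr A) {k i L : ℕ} (hL : D * k + i ≤ L) :
    conM f a L k (D * k + i) A = li ^ ((∑ j, a j) * k) * muW f A i := by
  have hk : ∀ j, a j * k + i ≤ L := fun j => by
    have := Nat.mul_le_mul_right k (haD j)
    omega
  have hr : ∀ j, a j * k < L + 1 := fun j => by have := hk j; omega
  have h1 : cls (arcs f (L + 1) (D * k + i) ∩ Sq.LA (L + 1) (fun j => a j * k) A) =
      cls (arcs f (i + 1) i ∩ AtW A i) * cls (Set.univ : Set (ConC.Fr n a k i L → ℂ)) := by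
    rw [← cls_prodSum ((isConstr_arcs f (i + 1) i).inter (isConstr_AtW hA i)) IsConstr.univ]
    exact cls_bijOn ((isConstr_arcs f (L + 1) (D * k + i)).inter (Sq.isConstr_LA hr hA))
      (isConstr_prodSum ((isConstr_arcs f (i + 1) i).inter (isConstr_AtW hA i)) IsConstr.univ)
      (ConC.ph hk) (ConC.bijOn hh hk)
  have h2 : ((LU ^ (n * (L + 1)))⁻¹ : Motˣ) * LU ^ Fintype.card (ConC.Fr n a k i L) =
      (LU⁻¹) ^ ((∑ j, a j) * k) * (LU ^ (n * (i + 1)))⁻¹ := by
    rw [ConC.card_Fr hk, pow_add, pow_add, mul_inv, mul_inv, inv_pow, mul_comm, ← mul_assoc,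
      mul_inv_cancel, one_mul]
  have h3 := congrArg (fun u : Motˣ => (u : Mot)) h2
  simp only [Units.val_mul] at h3
  unfold conM muW li
  rw [clsM_mul_eq h1, clsM_univ, mul_comm (clsM _), ← mul_assoc, h3, ← Units.val_pow_eq_pow_val,
    mul_assoc]

end YC

end MPb07157
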