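import Pool.Agent.Lib.MP_b07157_agM.RootLT
import Pool.Agent.Lib.MP_b07157_agM.WCDefs

/-!
# The root `-|a|/D` of weighted homogeneous polynomials whose gradient has only relations of linear
type
-/

noncomputable section

namespace MPb07157

open MvPolynomial MPb07157Q

namespace YC

variable {n : ℕ}

theorem wcomp_mul {a : Fin n → ℕ} {g : MvPolynomial (Fin n) ℂ} {e : ℕ}
    (hg : g.IsWeightedHomogeneous a e) (t : MvPolynomial (Fin n) ℂ) (k : ℕ) :
    weightedHomogeneousComponent a (k + e) (t * g) = weightedHomogeneousComponent a k t * g := by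
  classical
  induction t using MvPolynomial.induction_on' with
  | monomial β c =>
    have h1 : (monomial β c).IsWeightedHomogeneous a (Finsupp.weight a β) :=
      isWeightedHomogeneous_monomial a β c rfl
    have h2 := h1.mul hg
    rw [weightedHomogeneousComponent_of_mem ((mem_weightedHomogeneousSubmodule ℂ a _ _).2 h2),
      weightedHomogeneousComponent_of_mem ((mem_weightedHomogeneousSubmodule ℂ a _ _).2 h1)]
    by_cases h3 : k = Finsupp.weight a β
    · rw [if_pos h3, if_pos (by rw [h3])]
    · rw [if_neg h3, if_neg (by omega), zero_mul]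
  | add p q hp hq => rw [add_mul, map_add, map_add, hp, hq, add_mul]

/-- `NSW` for all vector fields which kill `f`. -/
theorem NSW.constantCoeff_div {f : MvPolynomial (Fin n) ℂ} {a : Fin n → ℕ} (hNS : NSW f a)
    {D : ℕ} (haD : ∀ i, a i < D) (hh : f.IsWeightedHomogeneous a D)
    {t : Fin n → MvPolynomial (Fin n) ℂ}
    (ht : ∑ i, t i * pderiv i f = 0) : constantCoeff (∑ i, pderiv i (t i)) = 0 := by
  classical
  have h1 : ∑ i, weightedHomogeneousComponent a (a i) (t i) * pderiv i f = 0 := by
    have h2 : ∀ i, weightedHomogeneousComponent a (a i) (t i) * pderiv i f =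
        weightedHomogeneousComponent a D (t i * pderiv i f) := fun i => by
      have h3 := wcomp_mul (hh.pderiv (i := i) (n' := D - a i) (by have := haD i; omega)) (t i)
        (a i)
      rw [← h3]
      congr 2
      have := haD i
      omega
    rw [Finset.sum_congr rfl fun i _ => h2 i, ← map_sum, ht, map_zero]
  have h2 := hNS _ (fun i => weightedHomogeneousComponent_isWeightedHomogeneous (a i) (t i)) h1
  have h3 := congrArg constantCoeff h2
  rw [map_sum, map_zero] at h3
  rw [map_sum, ← h3]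
  refine Finset.sum_congr rfl fun i _ => ?_
  rw [constantCoeff_pderiv, constantCoeff_pderiv, coeff_weightedHomogeneousComponent, if_pos]
  rw [Finsupp.weight_single]
  simp

theorem euler_auxW {f : MvPolynomial (Fin n) ℂ} {a : Fin n → ℕ} {D : ℕ}
    (hf : f.IsWeightedHomogeneous a D) :
    ∑ i, C (a i : ℂ) * X i * pderiv i f = C (D : ℂ) * f := by
  have h := hf.sum_weight_X_mul_pderiv
  rw [nsmul_eq_mul] at h
  rw [map_natCast, ← h]
  refine Finset.sum_congr rfl fun i _ => ?_
  rw [nsmul_eq_mul, map_natCast]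
  ring

theorem exists_s_mulW {f : MvPolynomial (Fin n) ℂ} {a : Fin n → ℕ} {D : ℕ} (hD : 0 < D)
    (hf : f.IsWeightedHomogeneous a D) (G : MvPolynomial (Fin n) (MvPolynomial (Fin n) ℂ)) :
    ∃ G', (∀ q : ℕ, Psi ((f : MvPowerSeries (Fin n) ℂ) ^ q) G' =
      (q : ℂ) • Psi ((f : MvPowerSeries (Fin n) ℂ) ^ q) G) ∧
      cc G' = -(((∑ i, a i : ℕ) : ℂ) / D) * cc G := by
  have hd' : (D : ℂ) ≠ 0 := by exact_mod_cast hD.ne'
  set A : ℂ := ((∑ i, a i : ℕ) : ℂ) with hA
  have hA' : A = ∑ i, (a i : ℂ) := by rw [hA]; push_cast; rfl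
  induction G using MvPolynomial.induction_on' with
  | monomial β c =>
    refine ⟨C (C ((D : ℂ)⁻¹)) * (∑ i, X i * monomial β (C (a i : ℂ) * X i * c) -
      monomial β (C A * c) - monomial β (∑ i, C (a i : ℂ) * X i * pderiv i c)), ?_, ?_⟩
    · intro q
      rw [Psi_smul, Psi_sub, Psi_sub, Psi_sum]
      have h1 : ∀ i, Psi ((f : MvPowerSeries (Fin n) ℂ) ^ q)
          (X i * monomial β (C (a i : ℂ) * X i * c)) =
          dPow β (MvPowerSeries.pderiv ℂ i (((C (a i : ℂ) * X i * c : MvPolynomial (Fin n) ℂ) :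
            MvPowerSeries (Fin n) ℂ) * (f : MvPowerSeries (Fin n) ℂ) ^ q)) := by
        intro i
        rw [Psi_X_mul, Psi_monomial, pderiv_dPow, dPow_pderiv]
      rw [Finset.sum_congr rfl fun i _ => h1 i, ← dPow_sum, Psi_monomial, Psi_monomial,
        Psi_monomial]
      have h2 : ∑ i, MvPowerSeries.pderiv ℂ i
            (((C (a i : ℂ) * X i * c : MvPolynomial (Fin n) ℂ) :
            MvPowerSeries (Fin n) ℂ) * (f : MvPowerSeries (Fin n) ℂ) ^ q) =
          ((C A * c : MvPolynomial (Fin n) ℂ) :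
            MvPowerSeries (Fin n) ℂ) * (f : MvPowerSeries (Fin n) ℂ) ^ q +
          ((∑ i, C (a i : ℂ) * X i * pderiv i c : MvPolynomial (Fin n) ℂ) :
            MvPowerSeries (Fin n) ℂ) * (f : MvPowerSeries (Fin n) ℂ) ^ q +
          ((D : ℂ) * q) • ((c : MvPowerSeries (Fin n) ℂ) *
            (f : MvPowerSeries (Fin n) ℂ) ^ q) := by
        have h3 : ∀ i, MvPowerSeries.pderiv ℂ i
            (((C (a i : ℂ) * X i * c : MvPolynomial (Fin n) ℂ) :
            MvPowerSeries (Fin n) ℂ) * (f : MvPowerSeries (Fin n) ℂ) ^ q) =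
            ((pderiv i ((C (a i : ℂ) * X i * c) * f ^ q) : MvPolynomial (Fin n) ℂ) :
              MvPowerSeries (Fin n) ℂ) := by
          intro i
          rw [← MvPowerSeries.pderiv_coe]
          simp only [coe_mul, coe_pow]
        rw [Finset.sum_congr rfl fun i _ => h3 i]
        have h4 : ∑ i, pderiv i ((C (a i : ℂ) * X i * c) * f ^ q) = C A * c * f ^ q +
            (∑ i, C (a i : ℂ) * X i * pderiv i c) * f ^ q + C ((D : ℂ) * q) * (c * f ^ q) := by
          have h5 : ∀ i, pderiv i ((C (a i : ℂ) * X i * c) * f ^ q) =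
              C (a i : ℂ) * (c * f ^ q) + C (a i : ℂ) * X i * pderiv i c * f ^ q +
              c * (C (a i : ℂ) * X i * pderiv i (f ^ q)) := by
            intro i
            rw [mul_assoc (C (a i : ℂ)) (X i) c, mul_assoc (C (a i : ℂ)) (X i * c) (f ^ q),
              pderiv_C_mul, Derivation.leibniz, Derivation.leibniz, pderiv_X_self, smul_eq_mul,
              smul_eq_mul, smul_eq_mul, smul_eq_mul]
            ring
          rw [Finset.sum_congr rfl fun i _ => h5 i, Finset.sum_add_distrib,
            Finset.sum_add_distrib, ← Finset.sum_mul, ← Finset.sum_mul, ← Finset.mul_sum,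
            euler_auxW (hf.pow q), hA', map_sum]
          rw [smul_eq_mul]
          push_cast
          rw [map_mul]
          simp only [map_mul, map_natCast]
          ring
        have h8 := congrArg (fun z : MvPolynomial (Fin n) ℂ => (z : MvPowerSeries (Fin n) ℂ)) h4
        simp only [coe_add, coe_mul, coe_pow, coe_C] at h8
        rw [← coeToMvPowerSeries.ringHom_apply, map_sum] at h8
        simp only [coeToMvPowerSeries.ringHom_apply] at h8
        simp only [coe_mul, coe_C]
        rw [h8, Algebra.smul_def, MvPowerSeries.c_eq_algebraMap]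
      rw [h2, dPow_add, dPow_add, dPow_smul]
      have h9 : ∀ A B D : MvPowerSeries (Fin n) ℂ, A + B + D - A - B = D := by
        intro A B D
        ring
      rw [h9, smul_smul]
      congr 1
      field_simp
    · rw [cc_smul, cc_sub, cc_sub]
      have h1 : cc (∑ i, X i * monomial β (C (a i : ℂ) * X i * c)) = 0 := by
        unfold cc
        rw [coeff_sum, map_sum]
        apply Finset.sum_eq_zero
        intro i _
        exact cc_X_mul i _
      rw [h1]
      unfold cc
      rw [coeff_monomial, coeff_monomial, coeff_monomial]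
      split_ifs with h
      · rw [map_mul, constantCoeff_C, map_sum]
        have h2 : ∑ i, constantCoeff (C (a i : ℂ) * X i * pderiv i c) = 0 := by
          apply Finset.sum_eq_zero
          intro i _
          rw [map_mul, map_mul, constantCoeff_X, mul_zero, zero_mul]
        rw [h2]
        ring
      · simp
  | add G H hG hH =>
    obtain ⟨G', h1, h1'⟩ := hG
    obtain ⟨H', h2, h2'⟩ := hH
    refine ⟨G' + H', fun q => ?_, ?_⟩
    · rw [Psi_add, Psi_add, h1, h2, smul_add]
    · rw [cc_add, cc_add, h1', h2']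
      ring

theorem exists_poly_mulW {f : MvPolynomial (Fin n) ℂ} {a : Fin n → ℕ} {D : ℕ} (hD : 0 < D)
    (hf : f.IsWeightedHomogeneous a D) (b : Polynomial ℂ)
    (G : MvPolynomial (Fin n) (MvPolynomial (Fin n) ℂ)) :
    ∃ G', (∀ q : ℕ, Psi ((f : MvPowerSeries (Fin n) ℂ) ^ q) G' =
      (b.eval (q : ℂ)) • Psi ((f : MvPowerSeries (Fin n) ℂ) ^ q) G) ∧
      cc G' = b.eval (-(((∑ i, a i : ℕ) : ℂ) / D)) * cc G := by
  induction b using Polynomial.induction_on' with
  | add p q hp hq =>
    obtain ⟨G', h1, h1'⟩ := hp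
    obtain ⟨H', h2, h2'⟩ := hq
    refine ⟨G' + H', fun q => ?_, ?_⟩
    · rw [Psi_add, h1, h2, Polynomial.eval_add, add_smul]
    · rw [cc_add, h1', h2', Polynomial.eval_add]
      ring
  | monomial k c =>
    induction k with
    | zero =>
      refine ⟨C (C c) * G, fun q => ?_, ?_⟩
      · rw [Psi_smul]
        simp
      · rw [cc_smul]
        simp
    | succ k ih =>
      obtain ⟨G', h1, h1'⟩ := ih
      obtain ⟨H', h2, h2'⟩ := exists_s_mulW hD hf G'
      refine ⟨H', fun q => ?_, ?_⟩
      · rw [h2, h1, smul_smul]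
        simp only [Polynomial.eval_monomial, pow_succ]
        ring_nf
      · rw [h2', h1']
        simp only [Polynomial.eval_monomial, pow_succ]
        ring

/-- For weighted homogeneous `f` all elements of `D[s] f^{s+1}` are in `D f^{s+1}`. -/
theorem exists_of_opW {f : MvPolynomial (Fin n) ℂ} {a : Fin n → ℕ} {D : ℕ} (hD : 0 < D)
    (hf : f.IsWeightedHomogeneous a D) {Φ : ℕ → MvPolynomial (Fin n) ℂ}
    (h : MPb07157S.Op (fun i : Fin n => (pderiv i :
      Derivation ℂ (MvPolynomial (Fin n) ℂ) (MvPolynomial (Fin n) ℂ))) f Φ) :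
    ∃ G, ∀ m, (Φ m : MvPowerSeries (Fin n) ℂ) = Psi ((f : MvPowerSeries (Fin n) ℂ) ^ m) G := by
  induction h with
  | base => exact ⟨C 1, fun m => by rw [Psi_C, coe_one, one_mul, coe_pow]⟩
  | add _ _ ih1 ih2 =>
    obtain ⟨G, h1⟩ := ih1
    obtain ⟨H, h2⟩ := ih2
    exact ⟨G + H, fun m => by rw [coe_add, h1, h2, Psi_add]⟩
  | @mul Φ c _ ih =>
    obtain ⟨G, h1⟩ := ih
    induction c using Polynomial.induction_on' with
    | add p q hp hq =>
      obtain ⟨G, h1⟩ := hp
      obtain ⟨H, h2⟩ := hq
      refine ⟨G + H, fun m => ?_⟩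
      rw [Psi_add, ← h1, ← h2]
      dsimp only
      rw [Polynomial.eval_add, add_mul, coe_add]
    | monomial k c =>
      obtain ⟨G₁, h2⟩ := exists_mul c G
      obtain ⟨G₂, h3, -⟩ := exists_poly_mulW hD hf ((Polynomial.X - 1) ^ k) G₁
      refine ⟨G₂, fun m => ?_⟩
      rw [h3, ← h2, ← h1]
      dsimp only
      rw [Polynomial.eval_monomial]
      simp only [Polynomial.eval_pow, Polynomial.eval_sub, Polynomial.eval_X,
        Polynomial.eval_one]
      rw [Algebra.smul_def, ← MvPowerSeries.c_eq_algebraMap, coe_mul, coe_mul, coe_pow]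
      have e : (((m : MvPolynomial (Fin n) ℂ) - 1 : MvPolynomial (Fin n) ℂ) :
          MvPowerSeries (Fin n) ℂ) = MvPowerSeries.C ((m : ℂ) - 1) := by
        have e2 : (m : MvPolynomial (Fin n) ℂ) - 1 = C ((m : ℂ) - 1) := by simp
        rw [e2, coe_C]
      rw [e, map_pow]
      ring
  | deriv i _ ih =>
    obtain ⟨G, h1⟩ := ih
    exact ⟨X i * G, fun m => by rw [Psi_X_mul, ← h1, MvPowerSeries.pderiv_coe]⟩

/-- **The root `-|a|/D`** for weighted homogeneous polynomials whose gradient has only relations of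
linear type and which are not killed by a vector field of weight zero with non-zero divergence. As
`root_of_linear_type` (`agM/RootLT.lean`, the case of the weights one); the lemma `key` there does not
use the homogeneity; `exists_of_op`, `exists_poly_mul` (`agQ`) need a weighted version (the Euler
field `∑ (a_i/D) x_i ∂_i`). -/
theorem root_of_linear_typeW {f : MvPolynomial (Fin n) ℂ} (hf : f ≠ 0) {a : Fin n → ℕ}
    (ha : ∀ i, 0 < a i) {D : ℕ} (haD : ∀ i, a i < D) (hD : 0 < D)
    (hh : f.IsWeightedHomogeneous a D) (hLT : LinType f) (hNS : NSW f a) {b : Polynomial ℂ}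
    (hb : InDnForm f 1 (b.map (MvPowerSeries.C (σ := Fin n) (R := ℂ)))) :
    b.eval (-(((∑ i, a i : ℕ) : ℂ) / D)) = 0 := by
  classical
  obtain ⟨h, hh1, hIn⟩ := hb.exists_poly
  have hA := inA_of_inDn hIn
  rw [map_mul, sw_C, sw_liftS] at hA
  obtain ⟨Φ, hΦ, hΦ2⟩ := hA.toOp hf
  obtain ⟨G, hG⟩ := exists_of_opW hD hh hΦ
  obtain ⟨G', hG', hcc⟩ := exists_poly_mulW hD hh b (C h)
  have hf0 : constantCoeff f = 0 := by
    rw [constantCoeff_eq]
    apply hh.coeff_eq_zero
    rw [map_zero]
    omega
  have hrel : ∀ q : ℕ, Psi ((f : MvPowerSeries (Fin n) ℂ) ^ q) (C f * G - G') = 0 := by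
    intro q
    have e1 := hΦ2 (q + 1)
    have e2 : Φ (q + 1) = C (b.eval (q : ℂ)) * (h * f ^ q) := by
      apply mul_left_cancel₀ hf
      rw [pow_one] at e1
      rw [e1, Polynomial.eval_mul, Polynomial.eval_C]
      have e3 : ((((q + 1 : ℕ) : MvPolynomial (Fin n) ℂ)) - 1) = C (q : ℂ) := by
        push_cast
        rw [add_sub_cancel_right]
        simp
      rw [e3, Polynomial.eval_map, Polynomial.eval₂_hom, pow_succ]
      ring
    rw [Psi_sub, Psi_mul_left, ← pow_succ', ← hG, e2, hG', Psi_C, coe_mul, coe_C, coe_mul,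
      coe_pow, Algebra.smul_def, MvPowerSeries.c_eq_algebraMap, sub_self]
  have hkey := key hf hLT (fun t ht => NSW.constantCoeff_div hNS haD hh ht)
    ((C f * G - G').support.sup Finsupp.degree) (C f * G - G')
    (fun β hβ => Finset.le_sup (f := Finsupp.degree) hβ) hrel
  rw [cc_sub, hcc] at hkey
  have e1 : cc (C f * G) = 0 := by
    unfold cc
    rw [coeff_C_mul, map_mul, hf0, zero_mul]
  have e2 : cc (C h : MvPolynomial (Fin n) (MvPolynomial (Fin n) ℂ)) = 1 := by
    unfold cc
    rw [coeff_zero_C, hh1]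
  rw [e1, e2] at hkey
  simpa using hkey

end YC

end MPb07157
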