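import Pool.Agent.Lib.MP_b07157_agYC.Defs

/-!
# The arcs which start in a free orbit
-/

noncomputable section

namespace MPb07157

open MvPolynomial

namespace YC

open YV YW

variable {n : ℕ} {f : MvPolynomial (Fin n) ℂ} {a : Fin n → ℕ} {D : ℕ}

theorem eq_one_of_free' {q : Fin n → ℂ} (hfree : Free a q) {r : ℂ}
    (hr : ∀ j, q j ≠ 0 → r ^ a j = 1) : r = 1 := by
  have h1 := hfree (orderOf r) fun j hj => orderOf_dvd_of_pow_eq_one (hr j hj)
  exact orderOf_eq_one_iff.1 h1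

/-- Weighted homogeneity for arcs. -/
theorem aeval_mul_of_wh (hh : f.IsWeightedHomogeneous a D) (t : ℂ) (g : Fin n → PowerSeries ℂ) :
    (aeval (fun i => PowerSeries.C (t ^ a i) * g i) f : PowerSeries ℂ) =
      PowerSeries.C (t ^ D) * aeval g f := by
  classical
  conv_lhs => rw [f.as_sum]
  conv_rhs => rw [f.as_sum]
  rw [map_sum, map_sum, Finset.mul_sum]
  refine Finset.sum_congr rfl fun d hd => ?_
  have hw : Finsupp.weight a d = D := hh (mem_support_iff.1 hd)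
  have e1 : (∏ i, (PowerSeries.C (t ^ a i) * g i) ^ d i : PowerSeries ℂ) =
      PowerSeries.C (t ^ D) * ∏ i, g i ^ d i := by
    have e2 : ∀ i, (PowerSeries.C (t ^ a i) * g i) ^ d i =
        PowerSeries.C (t ^ (d i * a i)) * g i ^ d i := by
      intro i
      rw [mul_pow, ← map_pow, ← pow_mul, mul_comm (a i)]
    rw [Finset.prod_congr rfl fun i _ => e2 i, Finset.prod_mul_distrib, ← map_prod,
      Finset.prod_pow_eq_pow_sum]
    congr 3
    rw [← hw, Finsupp.weight_apply, Finsupp.sum_fintype _ _ (by simp)]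
    simp
  rw [aeval_monomial, aeval_monomial, Finsupp.prod_fintype _ _ (by simp),
    Finsupp.prod_fintype _ _ (by simp), e1]
  ring

/-- The action of `ℂ^*` on arcs. -/
def scP (a : Fin n → ℕ) (N : ℕ) (p : Fin n × Fin N) : MvPolynomial (Fin 1 ⊕ (Fin n × Fin N)) ℂ :=
  X (Sum.inl 0) ^ a p.1 * X (Sum.inr p)

theorem polyMap_scP {N : ℕ} (x : Fin 1 ⊕ (Fin n × Fin N) → ℂ) :
    polyMap (scP a N) x = fun p => x (Sum.inl 0) ^ a p.1 * x (Sum.inr p) := by
  funext p
  simp [polyMap, scP]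

theorem arc_sc {N : ℕ} (t : ℂ) (γ : Fin n × Fin N → ℂ) :
    arc (fun p => t ^ a p.1 * γ p) = fun i => PowerSeries.C (t ^ a i) * arc γ i := by
  funext i
  ext k
  rw [PowerSeries.coeff_C_mul, coeff_arc, coeff_arc]
  split_ifs
  · rfl
  · rw [mul_zero]

theorem mem_arcs_sc (hh : f.IsWeightedHomogeneous a D) {N m : ℕ} {t : ℂ} (ht : t ≠ 0)
    (γ : Fin n × Fin N → ℂ) : (fun p => t ^ a p.1 * γ p) ∈ arcs f N m ↔ γ ∈ arcs f N m := by
  simp only [arcs, Set.mem_ofPred_eq]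
  rw [arc_sc, aeval_mul_of_wh hh, PowerSeries.order_mul]
  have h1 : (PowerSeries.C (t ^ D) : PowerSeries ℂ).order = 0 := by
    refine PowerSeries.order_zero_of_unit ?_
    rw [PowerSeries.isUnit_iff_constantCoeff, PowerSeries.constantCoeff_C]
    exact isUnit_iff_ne_zero.2 (pow_ne_zero _ ht)
  rw [h1, zero_add]

theorem cls_orb (ha : ∀ i, 0 < a i) (hh : f.IsWeightedHomogeneous a D) {q : Fin n → ℂ}
    (hq : q ≠ 0) (hfree : Free a q) (N m : ℕ) :
    cls (arcs f (N + 1) m ∩ AtW (orb a q) N) = (L - 1) * cls (arcs f (N + 1) m ∩ AtW {q} N) := by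
  have hS : IsConstr (arcs f (N + 1) m ∩ AtW {q} N) :=
    (isConstr_arcs _ _ _).inter (isConstr_AtW (isConstr_point q) N)
  rw [← cls_torus1, ← cls_prodSum isConstr_torus1 hS]
  symm
  refine cls_bijOn (isConstr_prodSum isConstr_torus1 hS)
    ((isConstr_arcs _ _ _).inter (isConstr_AtW (isConstr_orb ha hq) N)) (scP a (N + 1))
    ⟨?_, ?_, ?_⟩
  · rintro x ⟨h1, h2, h3⟩
    rw [polyMap_scP]
    have h1' : x (Sum.inl 0) ≠ 0 := h1
    refine ⟨(mem_arcs_sc hh h1' _).2 h2, x (Sum.inl 0), h1', ?_⟩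
    have h3' : (fun i => x (Sum.inr (i, 0))) = q := h3
    funext i
    show x (Sum.inl 0) ^ a i * x (Sum.inr (i, 0)) = x (Sum.inl 0) ^ a i * q i
    rw [← h3']
  · rintro x ⟨h1, -, h3⟩ y ⟨h1', -, h3'⟩ h
    rw [polyMap_scP, polyMap_scP] at h
    have e1 : (fun i => x (Sum.inr (i, 0))) = q := h3
    have e2 : (fun i => y (Sum.inr (i, 0))) = q := h3'
    have h0 : x (Sum.inl 0) ≠ 0 := h1
    have h0' : y (Sum.inl 0) ≠ 0 := h1'
    have h5 : x (Sum.inl 0) / y (Sum.inl 0) = 1 := by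
      apply eq_one_of_free' hfree
      intro j hj
      have h4 : x (Sum.inl 0) ^ a j * x (Sum.inr (j, 0)) = y (Sum.inl 0) ^ a j * y (Sum.inr (j, 0)) :=
        congrFun h (j, 0)
      have e3 : x (Sum.inr (j, 0)) = q j := congrFun e1 j
      have e4 : y (Sum.inr (j, 0)) = q j := congrFun e2 j
      rw [e3, e4] at h4
      rw [div_pow, div_eq_one_iff_eq (pow_ne_zero _ h0')]
      exact mul_right_cancel₀ hj h4
    have h6 : x (Sum.inl 0) = y (Sum.inl 0) := (div_eq_one_iff_eq h0').1 h5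
    funext k
    rcases k with u | p
    · rw [Subsingleton.elim u 0]
      exact h6
    · have h7 : x (Sum.inl 0) ^ a p.1 * x (Sum.inr p) = y (Sum.inl 0) ^ a p.1 * y (Sum.inr p) :=
        congrFun h p
      rw [h6] at h7
      exact mul_left_cancel₀ (pow_ne_zero _ h0') h7
  · rintro δ ⟨h1, t, ht, h2⟩
    have h3 : (fun p : Fin n × Fin (N + 1) => t ^ a p.1 * ((t ^ a p.1)⁻¹ * δ p)) = δ := by
      funext p
      rw [mul_inv_cancel_left₀ (pow_ne_zero _ ht)]
    refine ⟨Sum.elim (fun _ => t) (fun p => (t ^ a p.1)⁻¹ * δ p), ⟨ht, ?_, ?_⟩, ?_⟩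
    · have := (mem_arcs_sc hh ht (fun p => (t ^ a p.1)⁻¹ * δ p)).1 (by rw [h3]; exact h1)
      exact this
    · show (fun i => (t ^ a i)⁻¹ * δ (i, 0)) = q
      funext i
      have h4 : δ (i, 0) = t ^ a i * q i := congrFun h2 i
      rw [h4, inv_mul_cancel_left₀ (pow_ne_zero _ ht)]
    · rw [polyMap_scP]
      exact h3

/-- **The arcs which start in the orbit of `q`**: `(t, γ) ↦ (t^(a_i) γ_i)` is a bijection from
`ℂ^* × {arcs which start at q}`; `f(t γ) = t^D f(γ)`. It is injective since the isotropy group is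
trivial: `t^(a_i) = t'^(a_i)` for all `i` with `q_i ≠ 0` implies `t = t'` (compare `orbM_eq` and
`agYW/OrbA.lean`). -/
theorem muW_orb (ha : ∀ i, 0 < a i) (hh : f.IsWeightedHomogeneous a D) {q : Fin n → ℂ}
    (hq : q ≠ 0) (hfree : Free a q) (m : ℕ) :
    muW f (orb a q) m = ((LU : Mot) - 1) * muW f {q} m := by
  unfold muW clsM
  rw [cls_orb ha hh hq hfree, map_mul, map_sub, map_one, ← LU_val]
  ring

end YC

end MPb07157
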