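import Pool.Agent.Lib.MP_b07157_agYC.Defs
import Pool.Agent.Lib.MP_b07157_agU.Split1
import Pool.Agent.Lib.MP_b07157_agM.MZ
import Pool.Agent.Lib.MP_b07157_agM.MU
import Pool.Agent.Lib.MP_b07157_agS.SMain
import Pool.Agent.Lib.MP_b07157_agE.EMain

/-!
# The germs of weighted homogeneous polynomials outside the origin
-/

noncomputable section

namespace MPb07157

open MvPolynomial

namespace YC

open YV YW SI

variable {n : ℕ}

/-- Scaling the variables of a weighted homogeneous polynomial. -/
private theorem sec_wh {m : ℕ} {B : Type*} [CommRing B] [Algebra ℂ B]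
    {f : MvPolynomial (Fin m) ℂ} {a : Fin m → ℕ} {D : ℕ} (hh : f.IsWeightedHomogeneous a D)
    (w : B) (g : Fin m → B) :
    aeval (fun i => w ^ a i * g i) f = w ^ D * aeval g f := by
  classical
  conv_lhs => rw [f.as_sum, map_sum]
  conv_rhs => rw [f.as_sum, map_sum, Finset.mul_sum]
  refine Finset.sum_congr rfl fun v hv => ?_
  have h1 : ∑ i, a i * v i = D := by
    have h2 := hh (mem_support_iff.1 hv)
    rw [Finsupp.weight_apply, Finsupp.sum_fintype _ _ (fun i => by simp)] at h2
    rw [← h2]
    exact Finset.sum_congr rfl fun j _ => by rw [smul_eq_mul, mul_comm]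
  rw [aeval_monomial, aeval_monomial, Finsupp.prod_fintype _ _ (fun i => pow_zero _),
    Finsupp.prod_fintype _ _ (fun i => pow_zero _)]
  simp only [mul_pow, ← pow_mul]
  rw [Finset.prod_mul_distrib, Finset.prod_pow_eq_pow_sum, h1]
  ring

/-- The germ at `q`, `q_{j₀} = 1`, is a unit times the germ of the restriction to `x_{j₀} = 1`: the
substitution `x_i ↦ (1 + v)^(a_i) (q_i + y_l) - q_i`, `x_{j₀} ↦ (1 + v)^(a_{j₀}) - 1` (variables
`y_l = X l.castSucc`, `v = X (Fin.last n)`, the Jacobian determinant at the origin is `± a_{j₀}`;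
`IFT.exists_equiv`) maps `translate q f` to `(1 + v)^D` times the image of `gch f q j₀`; then
`SmcLoc.of_formEquivPow` and `SmcLoc.prodSep` with the constant `1` in one variable (as in
`agS/SClass.lean`). Compare `agYW/LYW.lean` (`aeval_chW_monomial`) and `agYV/LY.lean`
(`ly_ext`). -/
theorem smcLoc_section {f : MvPolynomial (Fin (n + 1)) ℂ} {a : Fin (n + 1) → ℕ}
    (ha : ∀ i, 0 < a i) {D : ℕ} (hh : f.IsWeightedHomogeneous a D) (hf : f ≠ 0)
    {q : Fin (n + 1) → ℂ} {j₀ : Fin (n + 1)} (hq : q j₀ = 1) (h0 : eval q f = 0)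
    (hg : SmcLoc (gch f q j₀)) : SmcLoc (translate q f) := by
  classical
  set w : MvPowerSeries (Fin (n + 1)) ℂ := 1 + MvPowerSeries.X (Fin.last n) with hw
  set g0 : Fin (n + 1) → MvPolynomial (Fin n) ℂ :=
    j₀.insertNth (α := fun _ => MvPolynomial (Fin n) ℂ) 1
      fun i => X i + C (q (j₀.succAbove i)) with hg0
  set G : Fin (n + 1) → MvPowerSeries (Fin (n + 1)) ℂ := fun i =>
    ((rename Fin.castSucc (g0 i) : MvPolynomial (Fin (n + 1)) ℂ) :
      MvPowerSeries (Fin (n + 1)) ℂ) with hG
  have hGj : G j₀ = 1 := by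
    simp only [hG, hg0, Fin.insertNth_apply_same, map_one, MvPolynomial.coe_one]
  have hGl : ∀ l : Fin n, G (j₀.succAbove l) =
      MvPowerSeries.X l.castSucc + MvPowerSeries.C (q (j₀.succAbove l)) := by
    intro l
    simp only [hG, hg0, Fin.insertNth_apply_succAbove, map_add, rename_X, rename_C,
      MvPolynomial.coe_add, MvPolynomial.coe_X, MvPolynomial.coe_C]
  set A : Fin (n + 1) → MvPowerSeries (Fin (n + 1)) ℂ := fun i =>
    w ^ a i * G i - MvPowerSeries.C (q i) with hA
  have hw0 : MvPowerSeries.constantCoeff w = 1 := by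
    rw [hw, map_add, map_one, MvPowerSeries.constantCoeff_X, add_zero]
  have hG0 : ∀ i, MvPowerSeries.constantCoeff (G i) = q i := by
    intro i
    refine Fin.succAboveCases j₀ ?_ (fun l => ?_) i
    · rw [hGj, map_one, hq]
    · rw [hGl, map_add, MvPowerSeries.constantCoeff_X, MvPowerSeries.constantCoeff_C, zero_add]
  have hA0 : ∀ i, MvPowerSeries.constantCoeff (A i) = 0 := by
    intro i
    simp only [hA]
    rw [map_sub, map_mul, map_pow, hw0, one_pow, one_mul, hG0, MvPowerSeries.constantCoeff_C,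
      sub_self]
  have hdC : ∀ (j : Fin (n + 1)) (c : ℂ), MvPowerSeries.pderiv ℂ j
      (MvPowerSeries.C c : MvPowerSeries (Fin (n + 1)) ℂ) = 0 := by
    intro j c
    exact Derivation.map_algebraMap _ c
  have hdw : ∀ (j : Fin (n + 1)) (m : ℕ), MvPowerSeries.constantCoeff
      (MvPowerSeries.pderiv ℂ j (w ^ m)) = if j = Fin.last n then (m : ℂ) else 0 := by
    intro j m
    have e1 : MvPowerSeries.pderiv ℂ j w = if j = Fin.last n then 1 else 0 := by
      rw [hw, map_add, Spl.pderiv_X, MvPowerSeries.pderiv_one, zero_add]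
    rw [Derivation.leibniz_pow, e1, smul_eq_mul, nsmul_eq_mul, map_mul, map_mul, map_pow, hw0,
      one_pow, one_mul, map_natCast]
    split_ifs
    · rw [map_one, mul_one]
    · rw [map_zero, mul_zero]
  have hdA : ∀ i j, MvPowerSeries.constantCoeff (MvPowerSeries.pderiv ℂ j (A i)) =
      (if j = Fin.last n then (a i : ℂ) * q i else 0) +
        MvPowerSeries.constantCoeff (MvPowerSeries.pderiv ℂ j (G i)) := by
    intro i j
    simp only [hA]
    rw [map_sub, hdC, sub_zero, Derivation.leibniz, smul_eq_mul, smul_eq_mul, map_add, map_mul,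
      map_mul, map_pow, hw0, one_pow, one_mul, hG0, hdw]
    split_ifs <;> ring
  have hJ : ∀ v : Fin (n + 1) → ℂ, (∀ i, ∑ j, MvPowerSeries.constantCoeff
      (MvPowerSeries.pderiv ℂ j (A i)) * v j = 0) → v = 0 := by
    intro v hv
    have h1 : v (Fin.last n) = 0 := by
      have h2 := hv j₀
      rw [Finset.sum_eq_single (Fin.last n)] at h2
      · rw [hdA, if_pos rfl, hGj, hq, mul_one] at h2
        have h3 : MvPowerSeries.pderiv ℂ (Fin.last n) (1 : MvPowerSeries (Fin (n + 1)) ℂ) = 0 :=
          Derivation.map_one_eq_zero _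
        rw [h3, map_zero, add_zero] at h2
        exact (mul_eq_zero.1 h2).resolve_left (by exact_mod_cast (ha j₀).ne')
      · intro j _ hj
        rw [hdA, if_neg hj, hGj]
        have h3 : MvPowerSeries.pderiv ℂ j (1 : MvPowerSeries (Fin (n + 1)) ℂ) = 0 :=
          Derivation.map_one_eq_zero _
        rw [h3, map_zero, add_zero, zero_mul]
      · intro h
        exact absurd (Finset.mem_univ _) h
    have h4 : ∀ l : Fin n, v l.castSucc = 0 := by
      intro l
      have h2 := hv (j₀.succAbove l)
      rw [Fin.sum_univ_castSucc, h1, mul_zero, add_zero, Finset.sum_eq_single l] at h2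
      · rw [hdA, if_neg (Fin.castSucc_lt_last l).ne, hGl, map_add, hdC, add_zero, Spl.pderiv_X,
          if_pos rfl, map_one, zero_add, one_mul] at h2
        exact h2
      · intro j _ hj
        rw [hdA, if_neg (Fin.castSucc_lt_last j).ne, hGl, map_add, hdC, add_zero, Spl.pderiv_X,
          if_neg (fun h => hj (Fin.castSucc_injective n h)), map_zero, zero_add, zero_mul]
      · intro h
        exact absurd (Finset.mem_univ _) h
    funext j
    induction j using Fin.lastCases with
    | last => exact h1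
    | cast l => exact h4 l
  obtain ⟨e, he⟩ := Spl.exists_equiv' hA0 hJ
  have hpoly : ∀ p : MvPolynomial (Fin (n + 1)) ℂ, e (p : MvPowerSeries (Fin (n + 1)) ℂ) =
      aeval A p := by
    intro p
    have e1 : (e : MvPowerSeries (Fin (n + 1)) ℂ →ₐ[ℂ] MvPowerSeries (Fin (n + 1)) ℂ).comp
        (MvPolynomial.coeToMvPowerSeries.algHom (R := ℂ) (σ := Fin (n + 1)) ℂ) = aeval A := by
      apply MvPolynomial.algHom_ext
      intro i
      rw [AlgHom.comp_apply, MvPolynomial.coeToMvPowerSeries.algHom_apply]
      simpa using he i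
    have e2 := congrArg (fun f => f p) e1
    simpa [AlgHom.comp_apply, MvPolynomial.coeToMvPowerSeries.algHom_apply] using e2
  have key : e ((translate q f : MvPolynomial (Fin (n + 1)) ℂ) :
      MvPowerSeries (Fin (n + 1)) ℂ) = w ^ D *
        ((prodSep (gch f q j₀) (1 : MvPolynomial (Fin 1) ℂ) : MvPolynomial (Fin (n + 1)) ℂ) :
          MvPowerSeries (Fin (n + 1)) ℂ) := by
    have h1 : aeval A (translate q f) = aeval (fun i => w ^ a i * G i) f := by
      unfold translate
      have e1 : (aeval A).comp (aeval (fun i => X i + C (q i)) :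
          MvPolynomial (Fin (n + 1)) ℂ →ₐ[ℂ] MvPolynomial (Fin (n + 1)) ℂ) =
          aeval (fun i => w ^ a i * G i) := by
        apply MvPolynomial.algHom_ext
        intro i
        rw [AlgHom.comp_apply, aeval_X, map_add, aeval_X, aeval_C, aeval_X]
        simp only [hA]
        exact sub_add_cancel _ _
      exact congrArg (fun h => h f) e1
    have h2 : aeval G f = ((rename Fin.castSucc (gch f q j₀) :
        MvPolynomial (Fin (n + 1)) ℂ) : MvPowerSeries (Fin (n + 1)) ℂ) := by
      have e1 : ((MvPolynomial.coeToMvPowerSeries.algHom (R := ℂ) (σ := Fin (n + 1)) ℂ).comp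
          (rename Fin.castSucc)).comp (aeval g0) = aeval G := by
        apply MvPolynomial.algHom_ext
        intro i
        rw [AlgHom.comp_apply, AlgHom.comp_apply, aeval_X, aeval_X,
          MvPolynomial.coeToMvPowerSeries.algHom_apply]
        simp [hG]
      have e2 := congrArg (fun h => h f) e1
      rw [← e2]
      simp [AlgHom.comp_apply, MvPolynomial.coeToMvPowerSeries.algHom_apply, gch, hg0]
    rw [hpoly, h1, sec_wh hh, h2]
    congr 2
    unfold prodSep
    rw [map_one, mul_one]
    rfl
  have hgne : gch f q j₀ ≠ 0 := by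
    intro h
    have h1 : e ((translate q f : MvPolynomial (Fin (n + 1)) ℂ) :
        MvPowerSeries (Fin (n + 1)) ℂ) = 0 := by
      rw [key, h]
      unfold prodSep
      rw [map_zero, zero_mul, MvPolynomial.coe_zero, mul_zero]
    rw [EmbeddingLike.map_eq_zero_iff] at h1
    exact translate_ne_zero hf q (MvPolynomial.coe_injective _ _ (by rw [h1, MvPolynomial.coe_zero]))
  have h1 : SmcLoc (1 : MvPolynomial (Fin 1) ℂ) := smcLoc_of_coeff_ne (by simp)
  have h2 : SmcLoc (prodSep (gch f q j₀) (1 : MvPolynomial (Fin 1) ℂ)) :=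
    SmcLoc.prodSep hgne one_ne_zero hg h1
  have hwu : IsUnit (w ^ D) := by
    rw [MvPowerSeries.isUnit_iff_constantCoeff, map_pow, hw0, one_pow]
    exact isUnit_one
  have hwu' : IsUnit (e.symm (w ^ D)) := hwu.map e.symm
  refine SmcLoc.of_formEquivPow one_pos ⟨e.symm, hwu'.unit, ?_⟩ h2
  rw [pow_one, IsUnit.unit_spec, ← map_mul, ← key, AlgEquiv.symm_apply_apply]

end YC

end MPb07157
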