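import Pool.Agent.Lib.MP_b07157_agM.StrHom
import Pool.Agent.Lib.MP_b07157_agYM.IsoN
import Pool.Agent.Lib.MP_b07157_agYC.BsC
import Pool.Agent.Lib.MP_b07157_agYC.ConC
import Pool.Agent.Lib.MP_b07157_agYC.DecC
import Pool.Agent.Lib.MP_b07157_agYC.LtC
import Pool.Agent.Lib.MP_b07157_agYC.OrbC
import Pool.Agent.Lib.MP_b07157_agYC.SecC
import Pool.Agent.Lib.MP_b07157_agYV.LY
import Pool.Agent.Lib.MP_b07157_agYW.LctW

/-!
# Weighted homogeneous polynomials: the main theorem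
-/

noncomputable section

namespace MPb07157

open MvPolynomial

namespace YC

open YV YW

variable {n : ℕ}

/-! ### Generalities -/

theorem LF_self {f : MvPolynomial (Fin n) ℂ} {a : Fin n → ℕ} {D : ℕ}
    (hh : f.IsWeightedHomogeneous a D) : YW.LF f a D = f := by
  unfold YW.LF
  rw [ly_inForm_face]
  exact hh.weightedHomogeneousComponent_same

theorem wc0_of_wHom {f : MvPolynomial (Fin n) ℂ} {a : Fin n → ℕ} {D : ℕ} (H : WHom f a D)
    (hf : f ≠ 0) : WC0 f a D := by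
  refine ⟨H.ha, H.haD, H.hD, fun v hv => ?_, ?_, ?_⟩
  · have h1 := H.hom (mem_support_iff.1 hv)
    rw [ly_weight] at h1
    exact h1.ge
  · rw [LF_self H.hom]
    exact hf
  · rw [LF_self H.hom]
    exact fun q hq hs => H.free q ⟨hq, hs⟩

/-- Multiplication by `∑_k L^(-E k) T^(D k)`. -/
theorem geo_mem {S : PowerSeries Mot} {D E : ℕ} (hD : 0 < D) {s₀ : ℚ}
    (h : (E : ℚ) + D * s₀ ≠ 0) (hS : S ∈ regularAt s₀) :
    (PowerSeries.mk fun m => ∑ k ∈ Finset.Icc 1 m, if D * k ≤ m then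
      li ^ (E * k) * PowerSeries.coeff (m - D * k) S else 0) ∈ regularAt s₀ := by
  refine mem_of_per (b := fun p => PowerSeries.C (li ^ (E * (p + 1))) *
    PowerSeries.X ^ (D * (p + 1)) * S) (W := 1) (D := D) (E := E) (fun p => ?_)
    (fun m => ⟨m, fun Q hQ => ?_⟩) hD h (fun p _ => ?_)
  · have e1 : li ^ (E * (p + 1 + 1)) = li ^ E * li ^ (E * (p + 1)) := by
      rw [← pow_add]
      congr 1
      ring
    have e2 : (PowerSeries.X : PowerSeries Mot) ^ (D * (p + 1 + 1)) =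
        PowerSeries.X ^ D * PowerSeries.X ^ (D * (p + 1)) := by
      rw [← pow_add]
      congr 1
      ring
    rw [e1, e2, map_mul]
    ring
  · rw [PowerSeries.coeff_mk]
    have e1 : ∑ k ∈ Finset.Icc 1 m, (if D * k ≤ m then
        li ^ (E * k) * PowerSeries.coeff (m - D * k) S else 0) =
        ∑ p ∈ Finset.range m, (if D * (p + 1) ≤ m then
          li ^ (E * (p + 1)) * PowerSeries.coeff (m - D * (p + 1)) S else 0) := by
      rw [Finset.range_eq_Ico, Finset.sum_Ico_add' (fun k => if D * k ≤ m then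
        li ^ (E * k) * PowerSeries.coeff (m - D * k) S else 0) 0 m 1]
      rfl
    rw [e1]
    have e2 : ∀ p, PowerSeries.coeff m (PowerSeries.C (li ^ (E * (p + 1))) *
        PowerSeries.X ^ (D * (p + 1)) * S) = if D * (p + 1) ≤ m then
          li ^ (E * (p + 1)) * PowerSeries.coeff (m - D * (p + 1)) S else 0 := by
      intro p
      rw [mul_assoc, PowerSeries.coeff_C_mul, PowerSeries.coeff_X_pow_mul']
      split_ifs
      · rfl
      · rw [mul_zero]
    rw [Finset.sum_congr rfl fun p _ => e2 p]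
    refine Finset.sum_subset (Finset.range_subset_range.2 hQ) fun p _ hp => ?_
    rw [Finset.mem_range, not_lt] at hp
    have h1 : p + 1 ≤ D * (p + 1) := Nat.le_mul_of_pos_left _ hD
    rw [if_neg (by omega)]
  · exact mul_mem (mul_mem (C_mem_regularAt s₀ _) (pow_mem (X_mem_regularAt s₀) _)) hS

/-! ### The critical points -/

theorem crit_sc {f : MvPolynomial (Fin n) ℂ} {a : Fin n → ℕ} {D : ℕ} (H : WHom f a D)
    {q c : Fin n → ℂ} (hq : q ∈ Cr f) (hc : c ∈ orb a q) : c ∈ Cr f := by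
  obtain ⟨t, ht, rfl⟩ := hc
  refine ⟨fun h0 => hq.1 ?_, fun j => ?_⟩
  · funext i
    have h1 := congrFun h0 i
    exact (mul_eq_zero.1 h1).resolve_left (pow_ne_zero _ ht)
  · have h1 : (pderiv j f).IsWeightedHomogeneous a (D - a j) := by
      refine IsWeightedHomogeneous.pderiv H.hom ?_
      have := H.haD j
      omega
    rw [rw_eval_sc h1, hq.2 j, mul_zero]

theorem eval_of_Cr {f : MvPolynomial (Fin n) ℂ} {a : Fin n → ℕ} {D : ℕ} (H : WHom f a D)
    {q : Fin n → ℂ} (hq : q ∈ Cr f) : eval q f = 0 := by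
  have h2 := congrArg (eval q) H.hom.sum_weight_X_mul_pderiv
  rw [map_sum, map_nsmul, Finset.sum_eq_zero (fun l _ => by
    rw [map_nsmul, map_mul, hq.2 l, mul_zero, smul_zero])] at h2
  have h3 : (D : ℂ) ≠ 0 := by exact_mod_cast H.hD.ne'
  rw [nsmul_eq_mul] at h2
  exact (mul_eq_zero.1 h2.symm).resolve_left h3

/-- Two orbits are equal or disjoint. -/
theorem orb_eq_or_disjoint (a : Fin n → ℕ) (p q : Fin n → ℂ) :
    orb a p = orb a q ∨ Disjoint (orb a p) (orb a q) := by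
  by_cases h : ∃ c, c ∈ orb a p ∧ c ∈ orb a q
  · left
    obtain ⟨c, h1, h2⟩ := h
    have h3 : p ∈ orb a q := rw_orb_trans (rw_orb_symm h1) h2
    ext x
    exact ⟨fun hx => rw_orb_trans hx h3, fun hx => rw_orb_trans hx (rw_orb_symm h3)⟩
  · right
    push Not at h
    rw [Set.disjoint_left]
    exact fun c hc => h c hc

theorem seriesAt_orb {f : MvPolynomial (Fin n) ℂ} {a : Fin n → ℕ} {D : ℕ} (H : WHom f a D)
    {q : Fin n → ℂ} (hq : q ∈ Cr f) :
    seriesAt f (orb a q) = PowerSeries.C ((LU : Mot) - 1) * Zmot0 (translate q f) := by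
  rw [← seriesAt_singleton]
  have h1 : seriesAt f (orb a q) = PowerSeries.mk (muW f (orb a q)) := rfl
  have h2 : seriesAt f {q} = PowerSeries.mk (muW f {q}) := rfl
  rw [h1, h2]
  ext m
  rw [PowerSeries.coeff_C_mul, PowerSeries.coeff_mk, PowerSeries.coeff_mk]
  exact muW_orb H.ha H.hom hq.1 (H.free q hq) m

/-! ### The poles -/

theorem pole_of_wcone {f : MvPolynomial (Fin n) ℂ} (hf : f ≠ 0) {a : Fin n → ℕ} {D : ℕ}
    (H : WHom f a D) {T : Set (Set (Fin n → ℂ))} (hT : T.Finite) {P : Finset (Fin n → ℂ)}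
    (hcov : ∀ p ∈ Cr f, (∃ W ∈ T, p ∈ W) ∨ ∃ q ∈ P, ∃ t : ℂ, p = sc a t q)
    {PP : (k : ℕ) → MvPolynomial (Fin k) ℂ → Prop}
    (h : ∀ W ∈ T, IsConstr W ∧ ∃ (k : ℕ) (g : MvPolynomial (Fin k) ℂ), PP k g ∧ TrivAlong f W g)
    {s₀ : ℚ} (h1 : s₀ ≠ -1) (h2 : ((∑ j, a j : ℕ) : ℚ) + D * s₀ ≠ 0)
    (hp : IsPole (Zmot0 f) s₀) :
    (∃ (k : ℕ) (g : MvPolynomial (Fin k) ℂ) (p : Fin n → ℂ), PP k g ∧
      TrivAlong f {p} g ∧ eval p f = 0 ∧ IsPole (Zmot0 g) s₀) ∨
    ∃ q ∈ P, q ∈ Cr f ∧ IsPole (Zmot0 (translate q f)) s₀ := by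
  classical
  by_contra hcon
  push Not at hcon
  obtain ⟨hcon1, hcon2⟩ := hcon
  have H0 := wc0_of_wHom H hf
  set S : Finset (Set (Fin n → ℂ)) := (P.filter (· ∈ Cr f)).image (orb a) with hS
  have hSm : ∀ O ∈ S, ∃ q ∈ P, q ∈ Cr f ∧ O = orb a q := by
    intro O hO
    obtain ⟨q, hq, rfl⟩ := Finset.mem_image.1 hO
    exact ⟨q, (Finset.mem_filter.1 hq).1, (Finset.mem_filter.1 hq).2, rfl⟩
  have hSc : ∀ O ∈ S, IsConstr O := by
    intro O hO
    obtain ⟨q, -, hq, rfl⟩ := hSm O hO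
    exact isConstr_orb H.ha hq.1
  set A₁ : Set (Fin n → ℂ) := {p | ∃ O ∈ S, p ∈ O} with hA₁
  have hA₁' : A₁ = ⋃ O ∈ S, O := by
    ext p
    simp [hA₁]
  have hcA₁ : IsConstr A₁ := by
    rw [hA₁']
    exact isConstr_biUnion _ _ hSc
  have hsub : A₁ ⊆ Cr f := by
    rintro p ⟨O, hO, hp⟩
    obtain ⟨q, -, hq, rfl⟩ := hSm O hO
    exact crit_sc H hq hp
  have hser1 : seriesAt f A₁ ∈ regularAt s₀ := by
    have e1 : seriesAt f A₁ = ∑ O ∈ S, seriesAt f O := by
      rw [hA₁']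
      exact seriesAt_biUnion f S (fun O => O) hSc (fun O hO O' hO' hne => by
        obtain ⟨q, -, -, rfl⟩ := hSm O hO
        obtain ⟨q', -, -, rfl⟩ := hSm O' hO'
        exact (orb_eq_or_disjoint a q q').resolve_left hne)
    rw [e1]
    refine sum_mem fun O hO => ?_
    obtain ⟨q, hqP, hq, rfl⟩ := hSm O hO
    rw [seriesAt_orb H hq]
    refine mul_mem (C_mem_regularAt s₀ _) ?_
    have h3 := hcon2 q hqP hq
    unfold IsPole at h3
    exact not_not.1 h3
  have hser2 : seriesAt f (Cr f ∩ A₁ᶜ) ∈ regularAt s₀ := by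
    refine seriesAt_mem_of_cover hf ((isConstr_Cr f).inter hcA₁.compl) hT (fun p hp _ => ?_) h
      (fun k g p hg ht h0 => ?_)
    · rcases hcov p hp.1 with h3 | ⟨q, hq, t, rfl⟩
      · exact h3
      · exfalso
        apply hp.2
        have ht : t ≠ 0 := by
          rintro rfl
          apply hp.1.1
          funext i
          simp [sc, zero_pow (H.ha i).ne']
        have hqC : q ∈ Cr f := crit_sc H hp.1 (rw_orb_symm ⟨t, ht, rfl⟩)
        exact ⟨orb a q, Finset.mem_image.2 ⟨q, Finset.mem_filter.2 ⟨hq, hqC⟩, rfl⟩, t, ht, rfl⟩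
    · have h4 := hcon1 k g p hg ht h0
      unfold IsPole at h4
      exact not_not.1 h4
  have hser : seriesAt f (Cr f) ∈ regularAt s₀ := by
    have e0 : Cr f = A₁ ∪ (Cr f ∩ A₁ᶜ) := by
      rw [Set.union_inter_distrib_left, Set.union_compl_self, Set.inter_univ,
        Set.union_eq_self_of_subset_left hsub]
    have e1 : seriesAt f (Cr f) = seriesAt f A₁ + seriesAt f (Cr f ∩ A₁ᶜ) := by
      conv_lhs => rw [e0]
      exact seriesAt_union _ hcA₁ ((isConstr_Cr f).inter hcA₁.compl)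
        (disjoint_compl_right.mono le_rfl Set.inter_subset_right)
    rw [e1]
    exact add_mem hser1 hser2
  apply hp
  have key : Zmot0 f = (PowerSeries.mk fun m =>
      ∑ p ∈ Finset.range (Sq.Wt a * m), aW f a D (p + 1) m) +
      PowerSeries.mk fun m => ∑ k ∈ Finset.Icc 1 m, if D * k ≤ m then
        li ^ ((∑ j, a j) * k) * PowerSeries.coeff (m - D * k) (seriesAt f (Cr f)) else 0 := by
    ext m
    rw [map_add, PowerSeries.coeff_mk, PowerSeries.coeff_mk]
    unfold Zmot0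
    rw [PowerSeries.coeff_mk, Zcoeff0_eq_C H0 m, LF_self H.hom]
    congr 1
    refine Finset.sum_congr rfl fun k _ => ?_
    by_cases hkm : D * k ≤ m
    · rw [if_pos hkm, if_pos hkm]
      have h3 := conM_eq (fun i => (H.haD i).le) H.hom (isConstr_Cr f) (k := k) (i := m - D * k)
        (L := m) (by omega)
      rw [Nat.add_sub_cancel' hkm] at h3
      have h4 : seriesAt f (Cr f) = PowerSeries.mk (muW f (Cr f)) := rfl
      rw [h3, h4, PowerSeries.coeff_mk]
    · rw [if_neg hkm, if_neg hkm]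
  rw [key]
  exact add_mem (smooth_mem H0 h1 h2) (geo_mem H.hD h2 hser)

/-! ### The main theorem -/

theorem smcLoc_wcone {f : MvPolynomial (Fin n) ℂ} (hf : f ≠ 0) {a : Fin n → ℕ} {D : ℕ}
    (H : WHom f a D) {T : Set (Set (Fin n → ℂ))} (hT : T.Finite) {P : Finset (Fin n → ℂ)}
    (hcov : ∀ p ∈ Cr f, (∃ W ∈ T, p ∈ W) ∨ ∃ q ∈ P, ∃ t : ℂ, p = sc a t q)
    {PP : (k : ℕ) → MvPolynomial (Fin k) ℂ → Prop}
    (hPP : ∀ (k : ℕ) (g : MvPolynomial (Fin k) ℂ), PP k g → g ≠ 0 → coeff 0 g = 0 → SmcLoc g)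
    (h : ∀ W ∈ T, IsConstr W ∧ ∃ (k : ℕ) (g : MvPolynomial (Fin k) ℂ), PP k g ∧ TrivAlong f W g)
    (hP : ∀ q ∈ P, q ∈ Cr f → SmcLoc (translate q f)) (hroot : WRoot f a D) : SmcLoc f := by
  intro s₀ hs hpole b hb
  have hD := H.hD
  have hDQ : (0 : ℚ) < D := by exact_mod_cast hD
  have H0 := wc0_of_wHom H hf
  have h00 : (0 : Fin n →₀ ℕ) ∉ f.support := by
    intro h
    have h1 := H0.low 0 h
    unfold MPb07157.wt at h1
    simp at h1
    omega
  by_cases hs1 : s₀ = -1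
  · subst hs1
    exact neg_one_root hf h00 b hb
  by_cases hs2 : s₀ = -(((∑ j, a j : ℕ) : ℚ) / D)
  · rcases hroot with hc | hc | ⟨hc, hc'⟩ | hc
    · exfalso
      apply hs1
      rw [hs2, hc, div_self hDQ.ne']
    · rcases Nat.eq_zero_or_pos n with hn | hn
      · exfalso
        subst hn
        obtain ⟨v, hv⟩ := MvPolynomial.support_nonempty.2 hf
        apply h00
        rwa [Subsingleton.elim v 0] at hv
      · rw [hs2]
        exact Lct.root_weight H.ha hD hn hf H0.low hc hb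
    · rw [hs2]
      have h1 := root_of_linear_typeW hf H.ha H.haD hD H.hom hc hc' hb
      push_cast at h1 ⊢
      exact h1
    · have h1 := root_of_initial H.ha H.haD hD hf H.hom (h := 0)
        (fun v hv => by simp at hv) (α := ((∑ j, a j : ℕ) : ℂ) / D) ?_ hc (by rwa [add_zero])
      · rw [hs2]
        push_cast at h1 ⊢
        exact h1
      · have h2 : (D : ℂ) ≠ 0 := by exact_mod_cast hD.ne'
        rw [div_mul_cancel₀ _ h2]
        push_cast
        rfl
  have hcand : ((∑ j, a j : ℕ) : ℚ) + D * s₀ ≠ 0 := by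
    intro h
    apply hs2
    rw [← neg_div, eq_div_iff hDQ.ne']
    linarith
  have hbg : IsBernsteinSato f b := isBernsteinSato_of_form_weighted H.ha H.hom hb
  rcases pole_of_wcone hf H hT hcov h hs1 hcand hpole with ⟨k, g, p, hg, ht, h0, hpole'⟩ |
    ⟨q, hq, hqC, hpole'⟩
  · exact hPP k g hg (ne_zero_of_trivAlong ht hf) (coeff_zero_of_trivAlong ht h0) s₀ hs hpole' b
      (form_of_trivAlong ht hbg)
  · exact hP q hq hqC s₀ hs hpole' b (form_translate q hbg)

/-! ### Sections -/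

/-- The section is not zero. -/
theorem gch_ne_zeroW {f : MvPolynomial (Fin (n + 1)) ℂ} (hf : f ≠ 0) {a : Fin (n + 1) → ℕ}
    (ha : ∀ i, 0 < a i) {D : ℕ} (hh : f.IsWeightedHomogeneous a D) (q : Fin (n + 1) → ℂ)
    (j₀ : Fin (n + 1)) : SI.gch f q j₀ ≠ 0 := by
  intro h0
  have h1 : X j₀ * f = 0 := by
    apply MvPolynomial.funext
    intro x
    rw [map_mul, eval_X, map_zero]
    by_cases hx : x j₀ = 0
    · rw [hx, zero_mul]
    · obtain ⟨t, ht⟩ := IsAlgClosed.exists_pow_nat_eq (x j₀) (ha j₀)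
      have ht0 : t ≠ 0 := by
        rintro rfl
        rw [zero_pow (ha j₀).ne'] at ht
        exact hx ht.symm
      have h2 : x = sc a t (j₀.insertNth (α := fun _ => ℂ) 1 fun i =>
          (t⁻¹ ^ a (j₀.succAbove i) * x (j₀.succAbove i) - q (j₀.succAbove i)) +
            q (j₀.succAbove i)) := by
        funext i
        unfold sc
        rcases Fin.eq_self_or_eq_succAbove j₀ i with rfl | ⟨m, rfl⟩
        · rw [Fin.insertNth_apply_same, mul_one, ht]
        · rw [Fin.insertNth_apply_succAbove, sub_add_cancel, ← mul_assoc, ← mul_pow,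
            mul_inv_cancel₀ ht0, one_pow, one_mul]
      rw [h2, rw_eval_sc hh, ← YM.eval_gchN, h0, map_zero, mul_zero, mul_zero]
  rcases mul_eq_zero.1 h1 with h2 | h2
  · exact X_ne_zero j₀ h2
  · exact hf h2

end YC

/-- **Weighted homogeneous polynomials** with critical points in strata and orbits along which the
germs are in the class. -/
theorem SmcLoc.of_wcone {k : ℕ} {f : MvPolynomial (Fin (k + 1)) ℂ} (hf : f ≠ 0)
    {a : Fin (k + 1) → ℕ} {D : ℕ} (H : WHom f a D) {T : Set (Set (Fin (k + 1) → ℂ))}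
    (hT : T.Finite) {P : Finset (Fin (k + 1) → ℂ)}
    (hcov : ∀ p, SingPt f p → (∃ W ∈ T, p ∈ W) ∨ ∃ q ∈ P, ∃ t : ℂ, p = fun i => t ^ a i * q i)
    {PP : (m : ℕ) → MvPolynomial (Fin m) ℂ → Prop}
    (hPP : ∀ (m : ℕ) (g : MvPolynomial (Fin m) ℂ), PP m g → g ≠ 0 → coeff 0 g = 0 → SmcLoc g)
    (h : ∀ W ∈ T, IsConstr W ∧ ∃ (m : ℕ) (g : MvPolynomial (Fin m) ℂ), PP m g ∧ TrivAlong f W g)
    (j : (Fin (k + 1) → ℂ) → Fin (k + 1)) (hj : ∀ q ∈ P, q (j q) = 1)
    (hP : ∀ q ∈ P, PP k (YQ.chartEq f q (j q))) (hroot : WRoot f a D) : SmcLoc f := by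
  refine YC.smcLoc_wcone hf H hT hcov hPP h (fun q hq hqC => ?_) hroot
  have h0 := YC.eval_of_Cr H hqC
  refine YC.smcLoc_section H.ha H.hom hf (hj q hq) h0 ?_
  refine hPP k _ (hP q hq) (YC.gch_ne_zeroW hf H.ha H.hom q (j q)) ?_
  have h1 := SI.pole_eval_gch f q (j q) (hj q hq)
  rw [h0, MvPolynomial.eval_zero, constantCoeff_eq] at h1
  exact h1

end MPb07157
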