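import Pool.Agent.Lib.MP_b07157_agM.WCDefs
import Pool.Agent.Lib.MP_b07157_agM.Strata
import Pool.Agent.Lib.MP_b07157_agYW.Smo
import Pool.Agent.Lib.MP_b07157_agYW.RepW

/-!
# Weighted homogeneous polynomials: definitions
-/

noncomputable section

namespace MPb07157

open MvPolynomial

namespace YC

open YV YW

variable {n : ℕ}

/-- The critical points outside the origin. -/
def Cr (f : MvPolynomial (Fin n) ℂ) : Set (Fin n → ℂ) :=
  {c | c ≠ 0 ∧ ∀ j, eval c (pderiv j f) = 0}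

theorem isConstr_Cr (f : MvPolynomial (Fin n) ℂ) : IsConstr (Cr f) := by
  have h1 : IsConstr {c : Fin n → ℂ | ∀ j ∈ (Finset.univ : Finset (Fin n)),
      eval c (pderiv j f) = 0} :=
    isConstr_forall_mem _ _ fun j _ => isConstr_eq_zero _
  have h2 := (isConstr_point (0 : Fin n → ℂ)).compl.inter h1
  have h3 : Cr f = ({0} : Set (Fin n → ℂ))ᶜ ∩ {c : Fin n → ℂ |
      ∀ j ∈ (Finset.univ : Finset (Fin n)), eval c (pderiv j f) = 0} := by
    ext c
    simp [Cr]
  rw [h3]
  exact h2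

/-- The measure of the arcs `x` with `ord x_j ≥ a_j k`, leading coefficients in `A`, and
`ord f = m`. -/
def conM (f : MvPolynomial (Fin n) ℂ) (a : Fin n → ℕ) (L k m : ℕ) (A : Set (Fin n → ℂ)) : Mot :=
  ↑((LU ^ (n * (L + 1)))⁻¹) * clsM (arcs f (L + 1) m ∩ Sq.LA (L + 1) (fun j => a j * k) A)

end YC

end MPb07157
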